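import Pool.Agent.Helper49.CI.Defs
import Pool.Agent.Helper97.CB.DataW
import Pool.Agent.Helper97.CB.Degen

/-!
# Conic bundles are conics in the fibres of a rational map
-/

set_option autoImplicit false

namespace Pool.Agent.Helper49.CI

open MvPolynomial Pool.Agent.Helper97.GM Pool.Agent.Helper97.RU Pool.Agent.Helper97.CB

universe u

variable {k : Type u} [Field k] {σ : Type} [Fintype σ]

/-- A variety whose generic point lies on a conic over `E`: the base is the field generated by the
coefficients. -/
theorem of_datum [IsAlgClosed k] {I : Ideal (MvPolynomial σ k)} (hH : Hom I) {E F : Type u} [Field E]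
    [Field F] [Algebra k E] [Algebra k F] [Algebra E F] [IsScalarTower k E F] {M : ℕ}
    {ε : Idx σ M → E} {u v : F} {i : σ} (ht : ∃ t : E, Transcendental k t)
    (h5 : ε (Sum.inr 5) = 1) (hu : Transcendental E u) (hQ : Q2 ε u v = 0)
    (hI : ∀ (f : MvPolynomial σ k) (m : ℕ), f.IsHomogeneous m →
        (f ∈ I ↔ aeval (Psi2 ε u v) f = 0)) (hi : Psi2 ε u v i ≠ 0)
    (hadj : IntermediateField.adjoin k (Set.range fun j => Psi2 ε u v j / Psi2 ε u v i) = ⊤)
    (hcase : disc2 ε ≠ 0 ∨ ((2 : k) = 0 ∧ ε (Sum.inr 0) = 0 ∧ ε (Sum.inr 1) = 0 ∧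
      ε (Sum.inr 3) = 0 ∧ v ∉ IntermediateField.adjoin E {u})) : ConicInFibre I := by
  classical
  obtain ⟨t, ht⟩ := ht
  set Y := Psi2 ε u v with hY
  have hinj := (algebraMap E F).injective
  set E₀ : IntermediateField k E := IntermediateField.adjoin k (Set.range ε) with hE₀
  have hmem : ∀ l, ε l ∈ E₀ := fun l => IntermediateField.subset_adjoin _ _ ⟨l, rfl⟩
  set ε₀ : Idx σ M → E₀ := fun l => ⟨ε l, hmem l⟩ with hε₀
  have hcoe : ∀ x : E₀, algebraMap E₀ F x = algebraMap E F (x : E) := fun x => rfl
  -- the forms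
  obtain ⟨d, ψ, ψ₀, hψ, hψ₀, hne, hz⟩ := exists_forms
    (y := Y) (i := i) hi (z := fun l => algebraMap E F (ε l)) (fun l => by rw [hadj]; trivial)
  set κ : F := aeval Y ψ₀ with hκd
  have h1 : ∀ l, aeval Y (ψ l) = κ * algebraMap E F (ε l) := by
    intro l
    rw [hz l]
    field_simp
  set e := Fintype.equivFin (Idx σ M) with he
  have h50 : ε₀ (Sum.inr 5) = 1 := Subtype.ext h5
  have huv : ∀ l, algebraMap E F (ε l) ∈ IntermediateField.adjoin E₀ {u, v} := fun l =>
    (IntermediateField.adjoin E₀ {u, v}).algebraMap_mem (ε₀ l)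
  have hYm : ∀ j, Y j ∈ IntermediateField.adjoin E₀ {u, v} := by
    intro j
    have hu1 : u ∈ IntermediateField.adjoin E₀ {u, v} :=
      IntermediateField.subset_adjoin _ _ (by simp)
    have hv1 : v ∈ IntermediateField.adjoin E₀ {u, v} :=
      IntermediateField.subset_adjoin _ _ (by simp)
    rw [hY, Psi2]
    refine sum_mem fun s _ => sum_mem fun m _ => ?_
    exact mul_mem (mul_mem (huv _) (pow_mem hu1 _)) (pow_mem hv1 _)
  have hmono : ∀ S : Set F, (∀ x ∈ Set.range fun j => Y j / Y i, x ∈ IntermediateField.adjoin E₀ S) →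
      IntermediateField.adjoin E₀ S = ⊤ := by
    intro S hS
    rw [eq_top_iff]
    intro z _
    have h2 : z ∈ IntermediateField.adjoin k (Set.range fun j => Y j / Y i) := by
      rw [hadj]
      trivial
    have h3 : IntermediateField.adjoin k (Set.range fun j => Y j / Y i) ≤
        (IntermediateField.adjoin E₀ S).restrictScalars k := by
      rw [IntermediateField.adjoin_le_iff]
      exact hS
    exact h3 h2
  have hYtop : IntermediateField.adjoin E₀ (Set.range fun j => Y j / Y i) = ⊤ :=
    hmono _ fun x hx => IntermediateField.subset_adjoin _ _ hx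
  have huvtop : IntermediateField.adjoin E₀ {u, v} = ⊤ := by
    apply hmono
    rintro _ ⟨j, rfl⟩
    exact div_mem (hYm j) (hYm i)
  have hu0 : Transcendental E₀ u := fun h => hu (h.tower_top E)
  have heq : v ^ 2 + (algebraMap E₀ F (ε₀ (Sum.inr 0)) * u + algebraMap E₀ F (ε₀ (Sum.inr 1))) * v +
      algebraMap E₀ F (ε₀ (Sum.inr 2)) * u ^ 2 + algebraMap E₀ F (ε₀ (Sum.inr 3)) * u +
      algebraMap E₀ F (ε₀ (Sum.inr 4)) = 0 := by
    rw [Q2, h5, map_one, one_mul] at hQ
    exact hQ
  refine ⟨Fintype.card (Idx σ M), d, fun l => ψ (e.symm l), E₀, F, inferInstance, inferInstance,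
    inferInstance, inferInstance, inferInstance, inferInstance, fun l => ε₀ (e.symm l), κ, Y,
    ε₀ (Sum.inr 0), ε₀ (Sum.inr 1), ε₀ (Sum.inr 2), ε₀ (Sum.inr 3), ε₀ (Sum.inr 4), u, v,
    fun l => hψ _, ?_, ⟨e (Sum.inr 5), ?_, ?_⟩, ?_, ?_, hne, fun l => h1 _, ⟨i, hi, hYtop⟩, hu0, heq,
    huvtop, ?_⟩
  · -- the generic point of the base
    intro g s hg
    have h4 : (bind₁ (fun l => ψ (e.symm l)) g).IsHomogeneous (d * s) :=
      hg.aeval _ fun l => hψ _
    rw [hI _ _ h4, aeval_bind₁]
    have h5 : aeval (fun l => aeval Y (ψ (e.symm l))) g =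
        κ ^ s * algebraMap E₀ F (aeval (fun l => ε₀ (e.symm l)) g) := by
      have h6 : algebraMap E₀ F (aeval (fun l => ε₀ (e.symm l)) g) =
          aeval (fun l => algebraMap E₀ F (ε₀ (e.symm l))) g :=
        (aeval_algebraMap_apply F _ g).symm
      rw [h6, ← aeval_smul_form' _ _ hg]
      congr 2
      funext l
      exact h1 _
    rw [h5, mul_eq_zero, map_eq_zero_iff _ (algebraMap E₀ F).injective]
    constructor
    · rintro (h7 | h7)
      · exact absurd h7 (pow_ne_zero _ hne)
      · exact h7
    · exact Or.inr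
  · simp only [Equiv.symm_apply_apply, h50]
    exact one_ne_zero
  · have h2 : (Set.range fun l' => ε₀ (e.symm l') / ε₀ (e.symm (e (Sum.inr 5)))) = Set.range ε₀ := by
      rw [Equiv.symm_apply_apply, h50]
      ext x
      constructor
      · rintro ⟨l, rfl⟩
        exact ⟨e.symm l, by simp⟩
      · rintro ⟨l, rfl⟩
        exact ⟨e l, by simp⟩
    rw [h2]
    apply IntermediateField.lift_injective E₀
    rw [IntermediateField.lift_adjoin, IntermediateField.lift_top, ← Set.range_comp]
    rfl
  · -- the base has positive dimension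
    by_contra hcon
    push Not at hcon
    have halg : ∀ x : E₀, ∃ a : k, algebraMap k E₀ a = x := by
      intro x
      have h2 : Algebra.IsAlgebraic k E₀ := ⟨fun x => not_not.1 (hcon x)⟩
      have h3 : Algebra.IsIntegral k E₀ := inferInstance
      exact (IsAlgClosed.algebraMap_bijective_of_isIntegral (k := k) (K := E₀)).2 x
    have h4 : ∀ l, ∃ a : k, ε l = algebraMap k E a := by
      intro l
      obtain ⟨a, ha⟩ := halg (ε₀ l)
      refine ⟨a, ?_⟩
      have h3 := congrArg (algebraMap E₀ E) ha
      rw [← IsScalarTower.algebraMap_apply] at h3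
      exact h3.symm
    choose a ha using h4
    have hmap : ∀ l, algebraMap E F (ε l) = algebraMap k F (a l) := by
      intro l
      rw [ha, ← IsScalarTower.algebraMap_apply]
    have hmemk : ∀ z : Polynomial k, Polynomial.aeval u z ∈ IntermediateField.adjoin k {u} :=
      fun z => (IntermediateField.mem_adjoin_simple_iff k _).2 ⟨z, 1, by simp⟩
    have hp := hmemk (-(Polynomial.C (a (Sum.inr 2)) * Polynomial.X ^ 2 +
      Polynomial.C (a (Sum.inr 3)) * Polynomial.X + Polynomial.C (a (Sum.inr 4))))
    have hq := hmemk (-(Polynomial.C (a (Sum.inr 0)) * Polynomial.X +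
      Polynomial.C (a (Sum.inr 1))))
    simp only [map_neg, map_add, map_mul, map_pow, Polynomial.aeval_C, Polynomial.aeval_X] at hp hq
    refine not_top ht hu hp hq (v := v) ?_ ?_
    · rw [Q2] at hQ
      rw [← hmap, ← hmap, ← hmap, ← hmap, ← hmap]
      rw [h5, map_one] at hQ
      linear_combination hQ
    · rw [← top_le_iff, ← hadj, IntermediateField.adjoin_le_iff]
      have huv : u ∈ IntermediateField.adjoin k {u, v} :=
        IntermediateField.subset_adjoin _ _ (by simp)
      have hvv : v ∈ IntermediateField.adjoin k {u, v} :=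
        IntermediateField.subset_adjoin _ _ (by simp)
      have hYm : ∀ j, Y j ∈ IntermediateField.adjoin k {u, v} := by
        intro j
        rw [hY, Psi2]
        refine sum_mem fun s _ => sum_mem fun m _ => ?_
        rw [hmap]
        exact mul_mem (mul_mem (IntermediateField.algebraMap_mem _ _) (pow_mem huv _))
          (pow_mem hvv _)
      rintro _ ⟨j, rfl⟩
      exact div_mem (hYm j) (hYm i)
  · -- `Y` lies on `X`
    intro f hf
    rw [← sum_homogeneousComponent f, map_sum]
    exact Finset.sum_eq_zero fun n _ =>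
      (hI _ _ (homogeneousComponent_isHomogeneous n f)).1 (hH f hf n)
  · rcases hcase with hd | ⟨h2, ha, hb, hd, hv⟩
    · left
      intro h0
      apply hd
      have h3 := congrArg (algebraMap E₀ E) h0
      simp only [map_sub, map_add, map_mul, map_pow, map_ofNat, map_zero] at h3
      have h4 : ∀ l, algebraMap E₀ E (ε₀ l) = ε l := fun l => rfl
      simp only [h4] at h3
      rw [disc2, h5]
      linear_combination h3
    · right
      refine ⟨h2, Subtype.ext ha, Subtype.ext hb, Subtype.ext hd, ?_⟩
      intro h3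
      apply hv
      have h4 : IntermediateField.adjoin E₀ {u} ≤
          (IntermediateField.adjoin E {u}).restrictScalars E₀ := by
        rw [IntermediateField.adjoin_le_iff]
        exact IntermediateField.subset_adjoin E {u}
      exact h4 h3

omit [Fintype σ] in
/-- A ruled variety has a conic bundle. -/
theorem conic_of_ruled {I : Ideal (MvPolynomial σ k)} (h : IsRuled I) : IsConicBundle I := by
  obtain ⟨E, _, _, y, ht, hI, hi⟩ := h
  have hX : Transcendental E (RatFunc.X : RatFunc E) := RatFunc.transcendental_X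
  refine ⟨E, RatFunc E, inferInstance, inferInstance, inferInstance, inferInstance, inferInstance,
    inferInstance, 0, 0, 0, -1, 0, RatFunc.X ^ 2, RatFunc.X, y, ht, by norm_num, hX.pow (by norm_num),
    by simp, ?_, hI, hi⟩
  rw [eq_top_iff, ← RatFunc.adjoin_X]
  exact IntermediateField.adjoin.mono _ _ _ (by simp)

/-- A conic bundle, given by any integral conic, is a variety with conics in the fibres of a rational
map. -/
theorem of_intConic [IsAlgClosed k] {I : Ideal (MvPolynomial σ k)} (hH : Hom I)
    (h : IsIntConic I) : ConicInFibre I := by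
  have hc : IsConicBundle I → ConicInFibre I := by
    intro h
    obtain ⟨E, F, _, _, _, _, _, _, M, ε, u, v, i, ht, h5, hdisc, hu, hQ, hI, hi, hadj⟩ :=
      conic_poly h
    exact of_datum hH ht h5 hu hQ hI hi hadj (Or.inl hdisc)
  rcases int_conic_cases h with h | h | h
  · exact hc (conic_of_ruled h)
  · exact hc h
  · obtain ⟨E, F, _, _, _, _, _, _, M, ε, u, v, i, ht, h5, ⟨h0, h1, h3⟩, hu, hv, hQ, hI, hi, hadj⟩ :=
      conic_polyW h
    exact of_datum hH ht h5 hu hQ hI hi hadj (Or.inr ⟨h.1, h0, h1, h3, hv⟩)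

end Pool.Agent.Helper49.CI
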