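import Pool.Agent.Helper49.CI.Defs
import Pool.Agent.Helper97.QC.Data

/-!
# Purely inseparable images of conic bundles have conics in the fibres of a rational map
-/

set_option autoImplicit false

namespace Pool.Agent.Helper49.CI

open MvPolynomial Pool.Agent.Helper97.GM Pool.Agent.Helper97.RU Pool.Agent.Helper97.CB
open Pool.Agent.Helper97.QC

universe u

variable {k : Type u} [Field k] {σ : Type} [Fintype σ]

theorem of_quasiConic [IsAlgClosed k] (p s : ℕ) [ExpChar k p] {I : Ideal (MvPolynomial σ k)}
    (hH : Hom I) (h : IsQuasiConic (p ^ s) I) : HasConicQ (p ^ s) I := by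
  classical
  obtain ⟨E, F, _, _, _, _, _, _, M, ε, u, v, i, ⟨t, ht⟩, h5, hdisc, hu, hQ, hI, hi, hadj⟩ :=
    conic_polyQ h
  have hp0 : 0 < p ^ s := pow_pos (expChar_pos k p) s
  have hp1 : p ^ s ≠ 0 := hp0.ne'
  set Y := Psi2 ε u v with hY
  have hinj := (algebraMap E F).injective
  set E₀ : IntermediateField k E := IntermediateField.adjoin k (Set.range ε) with hE₀
  have hmem : ∀ l, ε l ∈ E₀ := fun l => IntermediateField.subset_adjoin _ _ ⟨l, rfl⟩
  set ε₀ : Idx σ M → E₀ := fun l => ⟨ε l, hmem l⟩ with hε₀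
  -- the field generated by the conic over `E₀`
  set F₀ : IntermediateField E₀ F := IntermediateField.adjoin E₀ {u, v} with hF₀
  have huF : u ∈ F₀ := IntermediateField.subset_adjoin _ _ (by simp)
  have hvF : v ∈ F₀ := IntermediateField.subset_adjoin _ _ (by simp)
  set u₀ : F₀ := ⟨u, huF⟩ with hu₀
  set v₀ : F₀ := ⟨v, hvF⟩ with hv₀
  set Y₀ : σ → F₀ := Psi2 ε₀ u₀ v₀ with hY₀
  have hinj₀ := (algebraMap F₀ F).injective
  have : IsScalarTower k F₀ F := IsScalarTower.of_algebraMap_eq fun r => rfl
  have hYc : ∀ j, algebraMap F₀ F (Y₀ j) = Y j := by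
    intro j
    rw [hY₀, hY, Psi2, Psi2, map_sum]
    refine Finset.sum_congr rfl fun s _ => ?_
    rw [map_sum]
    refine Finset.sum_congr rfl fun m _ => ?_
    rw [map_mul, map_mul, map_pow, map_pow]
    rfl
  have hYf : ∀ f : MvPolynomial σ k, aeval Y f = algebraMap F₀ F (aeval Y₀ f) := by
    intro f
    rw [← aeval_algebraMap_apply F Y₀ f]
    congr 2
    funext j
    exact (hYc j).symm
  have hi₀ : Y₀ i ≠ 0 := by
    intro h0
    apply hi
    rw [← hYc, h0, map_zero]
  have hmap₀ : ∀ z : F₀, z ^ p ^ s ∈ IntermediateField.adjoin k (Set.range fun j => Y₀ j / Y₀ i) := by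
    intro z
    let ι : F₀ →ₐ[k] F := IsScalarTower.toAlgHom k F₀ F
    have h1 : (IntermediateField.adjoin k (Set.range fun j => Y₀ j / Y₀ i)).map ι =
        IntermediateField.adjoin k (Set.range fun j => Y j / Y i) := by
      rw [IntermediateField.adjoin_map, ← Set.range_comp]
      congr 2
      funext j
      rw [Function.comp_apply]
      change algebraMap F₀ F (Y₀ j / Y₀ i) = _
      rw [map_div₀, hYc, hYc]
    have h2 := hadj (algebraMap F₀ F z)
    rw [← h1, ← map_pow] at h2
    obtain ⟨w, hw, hwz⟩ := h2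
    have h3 : w = z ^ p ^ s := hinj₀ hwz
    rwa [← h3]
  -- the forms
  obtain ⟨d, ψ, ψ₀, hψ, hψ₀, hne, hz⟩ := exists_forms
    (y := Y₀) (i := i) hi₀ (z := fun l => algebraMap E₀ F₀ (ε₀ l) ^ p ^ s) (fun l => hmap₀ _)
  set κ : F₀ := aeval Y₀ ψ₀ with hκd
  have h1 : ∀ l, aeval Y₀ (ψ l) = κ * algebraMap E₀ F₀ (ε₀ l ^ p ^ s) := by
    intro l
    rw [map_pow, hz l]
    field_simp
  set e := Fintype.equivFin (Idx σ M) with he
  have h50 : ε₀ (Sum.inr 5) = 1 := Subtype.ext h5
  have hE₀top : IntermediateField.adjoin k (Set.range ε₀) = ⊤ := by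
    apply IntermediateField.lift_injective E₀
    rw [IntermediateField.lift_adjoin, IntermediateField.lift_top, ← Set.range_comp]
    rfl
  have : ExpChar E₀ p := expChar_of_injective_algebraMap (algebraMap k E₀).injective p
  have hu0 : Transcendental E₀ u := fun h => hu (h.tower_top E)
  refine ⟨Fintype.card (Idx σ M), d, fun l => ψ (e.symm l), E₀, F₀, inferInstance, inferInstance,
    inferInstance, inferInstance, inferInstance, inferInstance, fun l => ε₀ (e.symm l) ^ p ^ s,
    ε₀ (Sum.inr 0), ε₀ (Sum.inr 1), ε₀ (Sum.inr 2), ε₀ (Sum.inr 3), ε₀ (Sum.inr 4), u₀, v₀, Y₀,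
    fun l => hψ _, ?_, ⟨e (Sum.inr 5), ?_, ?_⟩, ?_, ?_, ?_, ?_, ?_, ?_, ⟨κ, hne, fun l => h1 _⟩,
    i, hi₀, hmap₀⟩
  · -- the generic point of the base
    intro g r hg
    have h4 : (bind₁ (fun l => ψ (e.symm l)) g).IsHomogeneous (d * r) :=
      hg.aeval _ fun l => hψ _
    rw [hI _ _ h4, hYf, map_eq_zero_iff _ hinj₀, aeval_bind₁]
    have h5 : aeval (fun l => aeval Y₀ (ψ (e.symm l))) g =
        κ ^ r * algebraMap E₀ F₀ (aeval (fun l => ε₀ (e.symm l) ^ p ^ s) g) := by
      have h6 : algebraMap E₀ F₀ (aeval (fun l => ε₀ (e.symm l) ^ p ^ s) g) =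
          aeval (fun l => algebraMap E₀ F₀ (ε₀ (e.symm l) ^ p ^ s)) g :=
        (aeval_algebraMap_apply F₀ _ g).symm
      rw [h6, ← aeval_smul_form' _ _ hg]
      congr 2
      funext l
      exact h1 _
    rw [h5, mul_eq_zero, map_eq_zero_iff _ (algebraMap E₀ F₀).injective]
    constructor
    · rintro (h7 | h7)
      · exact absurd h7 (pow_ne_zero _ hne)
      · exact h7
    · exact Or.inr
  · simp only [Equiv.symm_apply_apply, h50, one_pow]
    exact one_ne_zero
  · intro z
    have h2 : (Set.range fun l' => ε₀ (e.symm l') ^ p ^ s / ε₀ (e.symm (e (Sum.inr 5))) ^ p ^ s) =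
        Set.range fun l => ε₀ l ^ p ^ s := by
      rw [Equiv.symm_apply_apply, h50]
      ext x
      constructor
      · rintro ⟨l, rfl⟩
        exact ⟨e.symm l, by simp⟩
      · rintro ⟨l, rfl⟩
        exact ⟨e l, by simp⟩
    rw [h2]
    have h3 : z ∈ IntermediateField.adjoin k (Set.range ε₀) := by
      rw [hE₀top]
      trivial
    induction h3 using IntermediateField.adjoin_induction with
    | mem x hx =>
      obtain ⟨l, rfl⟩ := hx
      exact IntermediateField.subset_adjoin _ _ ⟨l, rfl⟩
    | algebraMap x =>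
      rw [← map_pow]
      exact IntermediateField.algebraMap_mem _ _
    | add x y _ _ hx hy =>
      rw [add_pow_expChar_pow]
      exact add_mem hx hy
    | inv x _ hx =>
      rw [inv_pow]
      exact inv_mem hx
    | mul x y _ _ hx hy =>
      rw [mul_pow]
      exact mul_mem hx hy
  · -- the base has positive dimension
    by_contra hcon
    push Not at hcon
    have halg : ∀ x : E₀, ∃ a : k, algebraMap k E₀ a = x := by
      intro x
      have h2 : Algebra.IsAlgebraic k E₀ := ⟨fun x => not_not.1 (hcon x)⟩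
      have h3 : Algebra.IsIntegral k E₀ := inferInstance
      exact (IsAlgClosed.algebraMap_bijective_of_isIntegral (k := k) (K := E₀)).2 x
    have h4 : ∀ l, ∃ a : k, ε l = algebraMap k E a := by
      intro l
      obtain ⟨a, ha⟩ := halg (ε₀ l)
      refine ⟨a, ?_⟩
      have h3 := congrArg (algebraMap E₀ E) ha
      rw [← IsScalarTower.algebraMap_apply] at h3
      exact h3.symm
    choose a ha using h4
    have hmap : ∀ l, algebraMap E F (ε l) = algebraMap k F (a l) := by
      intro l
      rw [ha, ← IsScalarTower.algebraMap_apply]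
    have hmemk : ∀ z : Polynomial k, Polynomial.aeval u z ∈ IntermediateField.adjoin k {u} :=
      fun z => (IntermediateField.mem_adjoin_simple_iff k _).2 ⟨z, 1, by simp⟩
    have hp := hmemk (-(Polynomial.C (a (Sum.inr 2)) * Polynomial.X ^ 2 +
      Polynomial.C (a (Sum.inr 3)) * Polynomial.X + Polynomial.C (a (Sum.inr 4))))
    have hq := hmemk (-(Polynomial.C (a (Sum.inr 0)) * Polynomial.X +
      Polynomial.C (a (Sum.inr 1))))
    simp only [map_neg, map_add, map_mul, map_pow, Polynomial.aeval_C, Polynomial.aeval_X] at hp hq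
    refine not_mem (ht.pow hp0) hu hp hq (v := v) ?_ ?_
    · rw [Q2] at hQ
      rw [← hmap, ← hmap, ← hmap, ← hmap, ← hmap]
      rw [h5, map_one] at hQ
      linear_combination hQ
    · rw [map_pow]
      have hle : IntermediateField.adjoin k (Set.range fun j => Y j / Y i) ≤
          IntermediateField.adjoin k {u, v} := by
        rw [IntermediateField.adjoin_le_iff]
        have huv : u ∈ IntermediateField.adjoin k {u, v} :=
          IntermediateField.subset_adjoin _ _ (by simp)
        have hvv : v ∈ IntermediateField.adjoin k {u, v} :=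
          IntermediateField.subset_adjoin _ _ (by simp)
        have hYm : ∀ j, Y j ∈ IntermediateField.adjoin k {u, v} := by
          intro j
          rw [hY, Psi2]
          refine sum_mem fun s _ => sum_mem fun m _ => ?_
          rw [hmap]
          exact mul_mem (mul_mem (IntermediateField.algebraMap_mem _ _) (pow_mem huv _))
            (pow_mem hvv _)
        rintro _ ⟨j, rfl⟩
        exact div_mem (hYm j) (hYm i)
      exact hle (hadj _)
  · intro h0
    apply hdisc
    have h3 := congrArg (algebraMap E₀ E) h0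
    simp only [map_sub, map_add, map_mul, map_pow, map_ofNat, map_zero] at h3
    have h4 : ∀ l, algebraMap E₀ E (ε₀ l) = ε l := fun l => rfl
    simp only [h4] at h3
    rw [disc2, h5]
    linear_combination h3
  · intro h0
    apply hu0
    exact (isAlgebraic_algebraMap_iff (A := F) hinj₀).2 h0
  · apply hinj₀
    rw [Q2, h5, map_one, one_mul] at hQ
    simp only [map_add, map_mul, map_pow, map_zero]
    exact hQ
  · apply IntermediateField.lift_injective F₀
    rw [IntermediateField.lift_adjoin, IntermediateField.lift_top, Set.image_pair]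
  · -- `Y₀` lies on `X`
    intro f hf
    apply hinj₀
    rw [← hYf, map_zero, ← sum_homogeneousComponent f, map_sum]
    exact Finset.sum_eq_zero fun n _ =>
      (hI _ _ (homogeneousComponent_isHomogeneous n f)).1 (hH f hf n)

end Pool.Agent.Helper49.CI
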