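import Pool.Agent.Helper49.CI.Defs
import Pool.Agent.Helper97.CB.DataW

/-!
# Families of wild conics in the fibres of a rational map
-/

set_option autoImplicit false

namespace Pool.Agent.Helper49.CI

open MvPolynomial Pool.Agent.Helper97.GM Pool.Agent.Helper97.RU Pool.Agent.Helper97.CB

universe u

variable {k : Type u} [Field k] {σ : Type} [Fintype σ]

theorem dataCW {I : Ideal (MvPolynomial σ k)} (h : HasConicW I) (hH : Hom I) :
    ∃ (M d d' δ : ℕ) (φ : Idx σ M → MvPolynomial σ k) (τ₀ τ₁ τ₂ : MvPolynomial σ k)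
      (D : MvPolynomial (Idx σ M) k),
      (∀ l, (φ l).IsHomogeneous d) ∧ τ₀.IsHomogeneous d' ∧ τ₁.IsHomogeneous d' ∧
      τ₂.IsHomogeneous d' ∧ D.IsHomogeneous δ ∧ 1 ≤ δ ∧ bind₁ φ D ∉ I ∧
      (∃ l l', ∀ c c' : k, c ≠ 0 ∨ c' ≠ 0 → C c * φ l + C c' * φ l' ∉ I) ∧
      ∀ (K : Type u) [Field K] [Algebra k K] (b : Idx σ M → K), InB I φ b → aeval b D ≠ 0 →
        WildAt I φ τ₀ τ₁ τ₂ b := by
  classical
  obtain ⟨-, m, n₀, φ, E, F, _, _, _, _, _, _, ε₁, c, e, u, v, y, hφ, hI, ⟨l₀, hl₀, hE⟩,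
    ⟨t, ht⟩, hu, hv, hvu, htop, hon, ⟨κ₁, hκ₁, hφy⟩, i, hi, hadj⟩ := h
  have hinj := (algebraMap E F).injective
  have hmem : ∀ z : Polynomial E, Polynomial.aeval u z ∈ IntermediateField.adjoin E {u} := fun z =>
    (IntermediateField.mem_adjoin_simple_iff E _).2 ⟨z, 1, by simp⟩
  have hp := hmem (-(Polynomial.C c * Polynomial.X ^ 2 + Polynomial.C e))
  have hq := hmem 0
  simp only [map_neg, map_add, map_mul, map_pow, Polynomial.aeval_C, Polynomial.aeval_X,
    map_zero] at hp hq
  obtain ⟨S, A, hS, hA⟩ := quad_clear hp hq (v := v) (by linear_combination hv) htop y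
  have hsum : ∀ j s, (A j s).natDegree < ∑ j, ∑ s, (A j s).natDegree + 1 := by
    intro j s
    have h1 := Finset.single_le_sum (f := fun j => ∑ s, (A j s).natDegree)
      (fun _ _ => Nat.zero_le _) (Finset.mem_univ j)
    have h2 := Finset.single_le_sum (f := fun s => (A j s).natDegree)
      (fun _ _ => Nat.zero_le _) (Finset.mem_univ s)
    omega
  set M : ℕ := ∑ j, ∑ s, (A j s).natDegree + 1 with hM
  set ε : Idx σ M → E := Sum.elim (fun x => (A x.1 x.2.1).coeff x.2.2) ![0, 0, c, 0, e, 1] with hε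
  have hΨ : ∀ j, Psi2 ε u v j = Polynomial.aeval u S * y j := by
    intro j
    have h1 : ∀ s, ∑ m : Fin M, algebraMap E F ((A j s).coeff m) * u ^ (m : ℕ) =
        Polynomial.aeval u (A j s) := by
      intro s
      rw [Polynomial.aeval_eq_sum_range' (hsum j s) u,
        ← Fin.sum_univ_eq_sum_range (fun m => (A j s).coeff m • u ^ m)]
      exact Finset.sum_congr rfl fun m _ => by rw [Algebra.smul_def]
    have h2 : Psi2 ε u v j = ∑ s : Fin 2, (∑ m : Fin M, algebraMap E F ((A j s).coeff m) *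
        u ^ (m : ℕ)) * v ^ (s : ℕ) := by
      rw [Psi2]
      refine Finset.sum_congr rfl fun s _ => ?_
      rw [Finset.sum_mul]
      rfl
    rw [h2, Fin.sum_univ_two, h1, h1, hA j]
    simp
  have hΨ' : Psi2 ε u v = fun j => Polynomial.aeval u S * y j := funext hΨ
  have h5 : ε (Sum.inr 5) = 1 := rfl
  have he0 : ε (Sum.inr 0) = 0 := rfl
  have he1 : ε (Sum.inr 1) = 0 := rfl
  have he3 : ε (Sum.inr 3) = 0 := rfl
  have hQ : Q2 ε u v = 0 := by
    have h1 : Q2 ε u v = algebraMap E F 1 * v ^ 2 + (algebraMap E F 0 * u + algebraMap E F 0) * v +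
        algebraMap E F c * u ^ 2 + algebraMap E F 0 * u + algebraMap E F e := rfl
    rw [h1, map_one, map_zero, one_mul]
    linear_combination hv
  set Y := Psi2 ε u v with hY
  have hiY : Y i ≠ 0 := by
    rw [hΨ]
    exact mul_ne_zero hS hi
  have hadjY : IntermediateField.adjoin k (Set.range fun j => Y j / Y i) = ⊤ := by
    rw [← hadj]
    congr 2
    funext j
    rw [hΨ, hΨ, mul_div_mul_left _ _ hS]
  -- the coefficients as functions on the base
  obtain ⟨d₁, ψ, ψ₀, hψ, hψ₀, hψ₀ne, hεψ⟩ := exists_forms (y := ε₁) (i := l₀) hl₀ (z := ε)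
    (fun l => by rw [hE]; trivial)
  -- the coordinates of the conic as functions on `X`
  obtain ⟨d', τ, τ₀, hτ, hτ₀, hne, hz⟩ := exists_forms (y := Y) (i := i) hiY (z := ![u, v])
    (fun l => by rw [hadjY]; trivial)
  have h2 : aeval Y (τ 0) = u * aeval Y τ₀ := by
    have h3 := hz 0
    simp only [Matrix.cons_val_zero] at h3
    rw [eq_div_iff hne] at h3
    exact h3.symm
  have h3 : aeval Y (τ 1) = v * aeval Y τ₀ := by
    have h3 := hz 1
    simp only [Matrix.cons_val_one] at h3
    rw [eq_div_iff hne] at h3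
    exact h3.symm
  set Φ : Idx σ M → MvPolynomial σ k := fun l => bind₁ φ (ψ l) with hΦ
  have hΦh : ∀ l, (Φ l).IsHomogeneous (n₀ * d₁) := fun l => (hψ l).aeval φ hφ
  set κ : F := (Polynomial.aeval u S ^ n₀ * κ₁) ^ d₁ * algebraMap E F (aeval ε₁ ψ₀) with hκ
  have hκ0 : κ ≠ 0 := by
    refine mul_ne_zero (pow_ne_zero _ (mul_ne_zero (pow_ne_zero _ hS) hκ₁)) ?_
    rwa [Ne, map_eq_zero_iff _ hinj]
  have h1 : ∀ l, aeval Y (Φ l) = κ * algebraMap E F (ε l) := by
    intro l
    have h4 : aeval Y (Φ l) = aeval (fun l' => aeval Y (φ l')) (ψ l) := by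
      rw [hΦ, aeval_bind₁]
    have h6 : (fun l' => aeval Y (φ l')) =
        fun l' => (Polynomial.aeval u S ^ n₀ * κ₁) * algebraMap E F (ε₁ l') := by
      funext l'
      rw [hΨ', aeval_smul_form' _ _ (hφ l'), hφy l']
      ring
    have h7 : aeval (fun l' => algebraMap E F (ε₁ l')) (ψ l) = algebraMap E F (aeval ε₁ (ψ l)) :=
      aeval_algebraMap_apply F ε₁ (ψ l)
    have h8 : aeval ε₁ (ψ l) = aeval ε₁ ψ₀ * ε l := by
      rw [hεψ l]
      field_simp
    rw [h4, h6, aeval_smul_form' _ _ (hψ l), h7, h8, map_mul, hκ]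
    ring
  -- the key equivalence
  have key0 : ∀ (g : MvPolynomial (Idx σ M) k) (n : ℕ), g.IsHomogeneous n →
      (bind₁ Φ g ∈ I ↔ aeval ε g = 0) := by
    intro g n hg
    have h4 : bind₁ Φ g = bind₁ φ (bind₁ ψ g) := by
      rw [bind₁_bind₁]
    have h6 : (bind₁ ψ g).IsHomogeneous (d₁ * n) := hg.aeval ψ fun l => hψ _
    rw [h4, hI _ _ h6, aeval_bind₁]
    have h7 : (fun l => aeval ε₁ (ψ l)) = fun l => aeval ε₁ ψ₀ * ε l := by
      funext l
      rw [hεψ l]
      field_simp
    rw [h7, aeval_smul_form' _ _ hg, mul_eq_zero]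
    constructor
    · rintro (h7 | h7)
      · exact absurd h7 (pow_ne_zero _ hψ₀ne)
      · exact h7
    · exact Or.inr
  have h50 : ε (Sum.inr 5) ≠ 0 := by rw [h5]; exact one_ne_zero
  -- specialisations
  have hspe : ∀ (K : Type u) [Field K] [Algebra k K] (b : Idx σ M → K), InB I Φ b →
      b (Sum.inr 5) ≠ 0 → Spe (k := k) ε (fun l => b l / b (Sum.inr 5)) := by
    intro K _ _ b hb hb5 g hg
    have h4 := hb (homog (Sum.inr 5) g.totalDegree g) _ (homog_hom _ _ _)
      ((key0 _ _ (homog_hom _ _ _)).2 (by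
        rw [aeval_homog ε h50 le_rfl]
        have h6 : (fun l => ε l / ε (Sum.inr 5)) = ε := by
          funext l
          rw [h5, div_one]
        rw [h6, hg, mul_zero]))
    rw [aeval_homog b hb5 le_rfl] at h4
    exact (mul_eq_zero.1 h4).resolve_left (pow_ne_zero _ hb5)
  -- nonvanishing
  obtain ⟨g1, hg1, hg1'⟩ := spec_neW (k := k) h5 hu hvu hQ (P := Gen2 M τ₀) (by
    rw [gen2_aeval]
    exact hne)
  obtain ⟨g2, hg2, hg2'⟩ := spec_neW (k := k) h5 hu hvu hQ (P := Gen2 M (Φ (Sum.inr 5))) (by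
    rw [gen2_aeval, ← hY, h1, h5, map_one, mul_one]
    exact hκ0)
  set g : MvPolynomial (Idx σ M) k := g1 * g2 with hg
  set D : MvPolynomial (Idx σ M) k :=
    X (Sum.inr 5) * homog (Sum.inr 5) g.totalDegree g with hD
  have hDh : D.IsHomogeneous (1 + g.totalDegree) :=
    (isHomogeneous_X k _).mul (homog_hom _ _ _)
  have hεdiv : (fun l => ε l / ε (Sum.inr 5)) = ε := by
    funext l
    rw [h5, div_one]
  refine ⟨M, n₀ * d₁, d', 1 + g.totalDegree, Φ, τ₀, τ 0, τ 1, D,
    hΦh, hτ₀, hτ _, hτ _, hDh, by omega, ?_, ?_, ?_⟩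
  · rw [key0 _ _ hDh, hD, map_mul, aeval_X, aeval_homog ε h50 le_rfl, hεdiv, h5,
      one_pow, one_mul, one_mul, hg, map_mul]
    exact mul_ne_zero hg1 hg2
  · -- independence
    by_contra hcon
    push Not at hcon
    have h4 : ∀ l, ∃ a : k, ε l = algebraMap k E a := by
      intro l
      obtain ⟨c, c', hc, hmem⟩ := hcon l (Sum.inr 5)
      have h7 : (C c * Φ l + C c' * Φ (Sum.inr 5)) = bind₁ Φ (C c * X l + C c' * X (Sum.inr 5)) := by
        simp
      have h6 : (C c * X l + C c' * X (Sum.inr 5) : MvPolynomial (Idx σ M) k).IsHomogeneous 1 := by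
        refine IsHomogeneous.add ?_ ?_
        · simpa using (isHomogeneous_C (Idx σ M) c).mul (isHomogeneous_X k l)
        · simpa using (isHomogeneous_C (Idx σ M) c').mul (isHomogeneous_X k (Sum.inr 5))
      rw [h7, key0 _ _ h6] at hmem
      simp only [map_add, map_mul, aeval_X, aeval_C, h5, mul_one] at hmem
      have h7 : c ≠ 0 := by
        intro h8
        rw [h8, map_zero, zero_mul, zero_add] at hmem
        rcases hc with h10 | h10
        · exact h10 h8
        · exact h10 ((map_eq_zero_iff _ (algebraMap k E).injective).1 hmem)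
      refine ⟨-c' / c, ?_⟩
      have h8 : algebraMap k E c ≠ 0 := by
        rwa [Ne, map_eq_zero_iff _ (algebraMap k E).injective]
      rw [map_div₀, map_neg, eq_div_iff h8]
      linear_combination hmem
    choose a' ha using h4
    have hmap : ∀ l, algebraMap E F (ε l) = algebraMap k F (a' l) := by
      intro l
      rw [ha, ← IsScalarTower.algebraMap_apply]
    have hmemk : ∀ z : Polynomial k, Polynomial.aeval u z ∈ IntermediateField.adjoin k {u} :=
      fun z => (IntermediateField.mem_adjoin_simple_iff k _).2 ⟨z, 1, by simp⟩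
    have hp := hmemk (-(Polynomial.C (a' (Sum.inr 2)) * Polynomial.X ^ 2 +
      Polynomial.C (a' (Sum.inr 3)) * Polynomial.X + Polynomial.C (a' (Sum.inr 4))))
    have hq := hmemk (-(Polynomial.C (a' (Sum.inr 0)) * Polynomial.X +
      Polynomial.C (a' (Sum.inr 1))))
    simp only [map_neg, map_add, map_mul, map_pow, Polynomial.aeval_C, Polynomial.aeval_X] at hp hq
    refine not_top ht hu hp hq (v := v) ?_ ?_
    · rw [Q2] at hQ
      rw [← hmap, ← hmap, ← hmap, ← hmap, ← hmap]
      rw [h5, map_one] at hQ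
      linear_combination hQ
    · rw [← top_le_iff, ← hadjY, IntermediateField.adjoin_le_iff]
      have huv : u ∈ IntermediateField.adjoin k {u, v} :=
        IntermediateField.subset_adjoin _ _ (by simp)
      have hvv : v ∈ IntermediateField.adjoin k {u, v} :=
        IntermediateField.subset_adjoin _ _ (by simp)
      have hYm : ∀ j, Y j ∈ IntermediateField.adjoin k {u, v} := by
        intro j
        rw [hY, Psi2]
        refine sum_mem fun s _ => sum_mem fun m _ => ?_
        rw [hmap]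
        exact mul_mem (mul_mem (IntermediateField.algebraMap_mem _ _) (pow_mem huv _))
          (pow_mem hvv _)
      rintro _ ⟨j, rfl⟩
      exact div_mem (hYm j) (hYm i)
  · intro K _ _ b hb hbD
    rw [hD, map_mul, aeval_X] at hbD
    have hb5 : b (Sum.inr 5) ≠ 0 := left_ne_zero_of_mul hbD
    have hbg := right_ne_zero_of_mul hbD
    rw [aeval_homog b hb5 le_rfl] at hbg
    have hbg' := right_ne_zero_of_mul hbg
    rw [hg, map_mul] at hbg'
    have hs := hspe K b hb hb5
    have hb0 : ∀ l, ε l = 0 → b l = 0 := by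
      intro l hl
      have h4 := hs (X l) (by rw [aeval_X]; exact hl)
      rw [aeval_X, div_eq_zero_iff] at h4
      exact h4.resolve_right hb5
    refine ⟨hb5, hb0 _ he0, hb0 _ he1, hb0 _ he3, ?_⟩
    intro L _ _ _ _ U V hU hUV
    set b' : Idx σ M → K := fun l => b l / b (Sum.inr 5) with hb'
    have hbb : ∀ l, algebraMap K L (b l) = algebraMap K L (b (Sum.inr 5)) * algebraMap K L (b' l) := by
      intro l
      rw [← map_mul, hb']
      simp only
      rw [mul_div_cancel₀ _ hb5]
    have hb5L : algebraMap K L (b (Sum.inr 5)) ≠ 0 := by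
      rwa [Ne, map_eq_zero_iff _ (algebraMap K L).injective]
    have hUV' : Q2 b' U V = 0 := by
      have h4 : Q2 b U V = algebraMap K L (b (Sum.inr 5)) * Q2 b' U V := by
        rw [Q2, Q2, hbb (Sum.inr 0), hbb (Sum.inr 1), hbb (Sum.inr 2), hbb (Sum.inr 3),
          hbb (Sum.inr 4)]
        have h6 := hbb (Sum.inr 5)
        linear_combination V ^ 2 * h6
      rw [h4] at hUV
      exact (mul_eq_zero.1 hUV).resolve_left hb5L
    have hΨb : Psi2 b U V = fun j => algebraMap K L (b (Sum.inr 5)) * Psi2 b' U V j := by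
      funext j
      rw [Psi2, Psi2, Finset.mul_sum]
      refine Finset.sum_congr rfl fun s _ => ?_
      rw [Finset.mul_sum]
      refine Finset.sum_congr rfl fun m _ => ?_
      rw [hbb (Sum.inl (j, s, m))]
      ring
    have hsc : ∀ (f : MvPolynomial σ k) (n : ℕ), f.IsHomogeneous n →
        aeval (Psi2 b U V) f = algebraMap K L (b (Sum.inr 5)) ^ n * aeval (Psi2 b' U V) f := by
      intro f n hf
      rw [hΨb, aeval_smul_form' _ _ hf]
    have hzero := fun {P : MvPolynomial (Idx σ M ⊕ Fin 2) k} hP =>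
      spec_zeroW (k := k) h5 hu hvu hQ (P := P) hP hs (L := L) hUV'
    refine ⟨?_, ?_, ?_, ?_, ?_, Sum.inr 5, ?_⟩
    · intro f hf
      rw [← sum_homogeneousComponent f, map_sum]
      refine Finset.sum_eq_zero fun n _ => ?_
      rw [hsc _ n (homogeneousComponent_isHomogeneous n f)]
      have h4 := hzero (P := Gen2 M (homogeneousComponent n f)) (by
        rw [gen2_aeval, ← hY, hΨ', aeval_smul_form' _ _ (homogeneousComponent_isHomogeneous n f),
          hon _ (hH f hf n), mul_zero])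
      rw [gen2_aeval] at h4
      rw [h4, mul_zero]
    · have h4 := hzero (P := Gen2 M (τ 0) - X (Sum.inr 0) * Gen2 M τ₀) (by
        rw [map_sub, map_mul, gen2_aeval, gen2_aeval, aeval_X, ← hY, h2]
        simp)
      rw [map_sub, map_mul, gen2_aeval, gen2_aeval, aeval_X] at h4
      simp only [Sum.elim_inr, Matrix.cons_val_zero] at h4
      rw [hsc _ d' (hτ _), hsc _ d' hτ₀]
      linear_combination (algebraMap K L (b (Sum.inr 5))) ^ d' * h4
    · have h4 := hzero (P := Gen2 M (τ 1) - X (Sum.inr 1) * Gen2 M τ₀) (by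
        rw [map_sub, map_mul, gen2_aeval, gen2_aeval, aeval_X, ← hY, h3]
        simp)
      rw [map_sub, map_mul, gen2_aeval, gen2_aeval, aeval_X] at h4
      have hV : Sum.elim (fun l => algebraMap K L (b' l)) ![U, V] (Sum.inr 1) = V := rfl
      rw [hV] at h4
      rw [hsc _ d' (hτ _), hsc _ d' hτ₀]
      linear_combination (algebraMap K L (b (Sum.inr 5))) ^ d' * h4
    · rw [hsc _ d' hτ₀]
      have h4 := hg1' K L b' hs (left_ne_zero_of_mul hbg') U V hU hUV'
      rw [gen2_aeval] at h4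
      exact mul_ne_zero (pow_ne_zero _ hb5L) h4
    · intro l l'
      have h4 := hzero (P := Gen2 M (Φ l) * X (Sum.inl l') - Gen2 M (Φ l') * X (Sum.inl l)) (by
        rw [map_sub, map_mul, map_mul, gen2_aeval, gen2_aeval, aeval_X, aeval_X, ← hY, h1, h1]
        simp only [Sum.elim_inl]
        ring)
      rw [map_sub, map_mul, map_mul, gen2_aeval, gen2_aeval, aeval_X, aeval_X] at h4
      simp only [Sum.elim_inl] at h4
      rw [hsc _ _ (hΦh _), hsc _ _ (hΦh _), hbb l, hbb l']
      linear_combination (algebraMap K L (b (Sum.inr 5))) ^ (n₀ * d₁ + 1) * h4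
    · rw [hsc _ _ (hΦh _)]
      have h4 := hg2' K L b' hs (right_ne_zero_of_mul hbg') U V hU hUV'
      rw [gen2_aeval] at h4
      exact mul_ne_zero (pow_ne_zero _ hb5L) h4

end Pool.Agent.Helper49.CI
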