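import Pool.Agent.Helper97.QC.Defs
import Pool.Agent.Helper97.CB.DefsW

/-!
# Conics in the fibres of a rational map: definitions
-/

set_option autoImplicit false

namespace Pool.Agent.Helper49.CI

open MvPolynomial Pool.Agent.Helper97.GM Pool.Agent.Helper97.RU Pool.Agent.Helper97.CB

universe u

variable {k : Type u} [Field k] {σ : Type} [Fintype σ]

/-- `X` has a rational map, given by the forms `ψ_l` of degree `m`, onto a variety `B` of positive
dimension, with function field `E` and generic point `ε`, and its generic fibre contains an integral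
curve over `E`, with generic point `y` and function field `F`, which is birational to the conic
`v² + (a u + b) v + c u² + d u + e = 0`; this conic is smooth, or the characteristic is `2`,
`a = b = d = 0` and the conic is not a line or a double line over `E`. -/
def ConicInFibre (I : Ideal (MvPolynomial σ k)) : Prop :=
  ∃ (r m : ℕ) (ψ : Fin r → MvPolynomial σ k) (E F : Type u) (_ : Field E) (_ : Field F)
    (_ : Algebra k E) (_ : Algebra k F) (_ : Algebra E F) (_ : IsScalarTower k E F)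
    (ε : Fin r → E) (κ : F) (y : σ → F) (a b c d e : E) (u v : F),
    (∀ l, (ψ l).IsHomogeneous m) ∧
    (∀ (g : MvPolynomial (Fin r) k) (s : ℕ), g.IsHomogeneous s →
      (bind₁ ψ g ∈ I ↔ aeval ε g = 0)) ∧
    (∃ l, ε l ≠ 0 ∧ IntermediateField.adjoin k (Set.range fun l' => ε l' / ε l) = ⊤) ∧
    (∃ t : E, Transcendental k t) ∧
    On I y ∧ κ ≠ 0 ∧ (∀ l, aeval y (ψ l) = κ * algebraMap E F (ε l)) ∧
    (∃ i, y i ≠ 0 ∧ IntermediateField.adjoin E (Set.range fun j => y j / y i) = ⊤) ∧
    Transcendental E u ∧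
    v ^ 2 + (algebraMap E F a * u + algebraMap E F b) * v + algebraMap E F c * u ^ 2 +
      algebraMap E F d * u + algebraMap E F e = 0 ∧
    IntermediateField.adjoin E {u, v} = ⊤ ∧
    (4 * c * e + a * b * d - c * b ^ 2 - d ^ 2 - e * a ^ 2 ≠ 0 ∨
      ((2 : k) = 0 ∧ a = 0 ∧ b = 0 ∧ d = 0 ∧ v ∉ IntermediateField.adjoin E {u}))

/-- The case of a smooth conic. -/
def HasConic (I : Ideal (MvPolynomial σ k)) : Prop :=
  ∃ (m n : ℕ) (φ : Fin m → MvPolynomial σ k) (E F : Type u) (_ : Field E) (_ : Field F)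
    (_ : Algebra k E) (_ : Algebra k F) (_ : Algebra E F) (_ : IsScalarTower k E F)
    (ε : Fin m → E) (a b c d e : E) (u v : F) (y : σ → F),
    (∀ l, (φ l).IsHomogeneous n) ∧
    (∀ (g : MvPolynomial (Fin m) k) (r : ℕ), g.IsHomogeneous r →
      (bind₁ φ g ∈ I ↔ aeval ε g = 0)) ∧
    (∃ l, ε l ≠ 0 ∧ IntermediateField.adjoin k (Set.range fun l' => ε l' / ε l) = ⊤) ∧
    (∃ t : E, Transcendental k t) ∧
    4 * c * e + a * b * d - c * b ^ 2 - d ^ 2 - e * a ^ 2 ≠ 0 ∧
    Transcendental E u ∧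
    v ^ 2 + (algebraMap E F a * u + algebraMap E F b) * v + algebraMap E F c * u ^ 2 +
      algebraMap E F d * u + algebraMap E F e = 0 ∧
    IntermediateField.adjoin E {u, v} = ⊤ ∧
    On I y ∧ (∃ κ : F, κ ≠ 0 ∧ ∀ l, aeval y (φ l) = κ * algebraMap E F (ε l)) ∧
    ∃ i, y i ≠ 0 ∧ IntermediateField.adjoin k (Set.range fun j => y j / y i) = ⊤

/-- The wild case. -/
def HasConicW (I : Ideal (MvPolynomial σ k)) : Prop :=
  (2 : k) = 0 ∧
  ∃ (m n : ℕ) (φ : Fin m → MvPolynomial σ k) (E F : Type u) (_ : Field E) (_ : Field F)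
    (_ : Algebra k E) (_ : Algebra k F) (_ : Algebra E F) (_ : IsScalarTower k E F)
    (ε : Fin m → E) (c e : E) (u v : F) (y : σ → F),
    (∀ l, (φ l).IsHomogeneous n) ∧
    (∀ (g : MvPolynomial (Fin m) k) (r : ℕ), g.IsHomogeneous r →
      (bind₁ φ g ∈ I ↔ aeval ε g = 0)) ∧
    (∃ l, ε l ≠ 0 ∧ IntermediateField.adjoin k (Set.range fun l' => ε l' / ε l) = ⊤) ∧
    (∃ t : E, Transcendental k t) ∧
    Transcendental E u ∧
    v ^ 2 + algebraMap E F c * u ^ 2 + algebraMap E F e = 0 ∧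
    v ∉ IntermediateField.adjoin E {u} ∧
    IntermediateField.adjoin E {u, v} = ⊤ ∧
    On I y ∧ (∃ κ : F, κ ≠ 0 ∧ ∀ l, aeval y (φ l) = κ * algebraMap E F (ε l)) ∧
    ∃ i, y i ≠ 0 ∧ IntermediateField.adjoin k (Set.range fun j => y j / y i) = ⊤

/-- `X` has a rational map, given by the forms `φ_l` of degree `n`, onto a variety `B` of positive
dimension with generic point `ε`; `E` is an extension of the function field `k(B)` with `E ^ q` in
`k(B)`, and there is a map `y` over `k(B)` from the smooth conic `v² + (a u + b) v + c u² + d u + e = 0`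
over `E`, with function field `F`, to the generic fibre, such that the `q`-th powers of the elements of
`F` are rational functions in `y`. -/
def HasConicQ (q : ℕ) (I : Ideal (MvPolynomial σ k)) : Prop :=
  ∃ (m n : ℕ) (φ : Fin m → MvPolynomial σ k) (E F : Type u) (_ : Field E) (_ : Field F)
    (_ : Algebra k E) (_ : Algebra k F) (_ : Algebra E F) (_ : IsScalarTower k E F)
    (ε : Fin m → E) (a b c d e : E) (u v : F) (y : σ → F),
    (∀ l, (φ l).IsHomogeneous n) ∧
    (∀ (g : MvPolynomial (Fin m) k) (r : ℕ), g.IsHomogeneous r →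
      (bind₁ φ g ∈ I ↔ aeval ε g = 0)) ∧
    (∃ l, ε l ≠ 0 ∧
      ∀ z : E, z ^ q ∈ IntermediateField.adjoin k (Set.range fun l' => ε l' / ε l)) ∧
    (∃ t : E, Transcendental k t) ∧
    4 * c * e + a * b * d - c * b ^ 2 - d ^ 2 - e * a ^ 2 ≠ 0 ∧
    Transcendental E u ∧
    v ^ 2 + (algebraMap E F a * u + algebraMap E F b) * v + algebraMap E F c * u ^ 2 +
      algebraMap E F d * u + algebraMap E F e = 0 ∧
    IntermediateField.adjoin E {u, v} = ⊤ ∧
    On I y ∧ (∃ κ : F, κ ≠ 0 ∧ ∀ l, aeval y (φ l) = κ * algebraMap E F (ε l)) ∧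
    ∃ i, y i ≠ 0 ∧ ∀ z : F, z ^ q ∈ IntermediateField.adjoin k (Set.range fun j => y j / y i)

end Pool.Agent.Helper49.CI
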