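import Pool.Agent.Helper49.CI.Curve
import Pool.Agent.Helper49.CI.Data
import Pool.Agent.Helper49.CI.DataQ
import Pool.Agent.Helper49.CI.DataW
import Pool.Agent.Helper97.CB.Lift
import Pool.Agent.Helper97.CB.LiftW

/-!
# Smooth rationally chain connected varieties with conics in the fibres of a rational map
-/

set_option autoImplicit false

namespace Pool.Agent.Helper49.CI

open MvPolynomial Pool.Agent.Helper97.GM Pool.Agent.Helper97.RU Pool.Agent.Helper97.CB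

universe u

variable {k : Type u} [Field k] {σ : Type} [Fintype σ]

theorem main [IsAlgClosed k] {I : Ideal (MvPolynomial σ k)} (hI : I.IsPrime) (hH : Hom I)
    (hsm : ∀ x : σ → k, x ≠ 0 → On I x → SmoothPt I x)
    (hrc : ∀ x x' : σ → k, x ≠ 0 → x' ≠ 0 → On I x → On I x' → Relation.ReflTransGen (Joined I) x x')
    (hc : HasConic I) : HasSurface I := by
  obtain ⟨M, d, d', δ, φ, τ₀, τ₁, τ₂, D, hφ, hτ₀, hτ₁, hτ₂, hD, -, hDI, ⟨l, l', hind⟩, hK⟩ :=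
    dataC hc hH
  obtain ⟨b, hb, hbD, hbc⟩ := exists_curve hI hH hsm hrc hφ hD hDI hind
  exact lift2 hφ hτ₀ hτ₁ hτ₂ hD hK hb hbD hbc

theorem mainW [IsAlgClosed k] {I : Ideal (MvPolynomial σ k)} (hI : I.IsPrime) (hH : Hom I)
    (hsm : ∀ x : σ → k, x ≠ 0 → On I x → SmoothPt I x)
    (hrc : ∀ x x' : σ → k, x ≠ 0 → x' ≠ 0 → On I x → On I x' → Relation.ReflTransGen (Joined I) x x')
    (hc : HasConicW I) : HasSurface I := by
  obtain ⟨M, d, d', δ, φ, τ₀, τ₁, τ₂, D, hφ, hτ₀, hτ₁, hτ₂, hD, -, hDI, ⟨l, l', hind⟩, hK⟩ :=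
    dataCW hc hH
  obtain ⟨b, hb, hbD, hbc⟩ := exists_curve hI hH hsm hrc hφ hD hDI hind
  exact liftW hc.1 hφ hτ₀ hτ₁ hτ₂ hD hK hb hbD hbc

/-- The two cases of `ConicInFibre`. -/
theorem cases_of {I : Ideal (MvPolynomial σ k)} (h : ConicInFibre I) : HasConic I ∨ HasConicW I := by
  obtain ⟨r, m, ψ, E, F, _, _, _, _, _, _, ε, κ, y, a, b, c, d, e, u, v, hψ, hB, hE, ht, hy, hκ,
    hψy, ⟨i, hi, hF⟩, hu, heq, htop, hcase⟩ := h
  obtain ⟨p, hp⟩ := ExpChar.exists k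
  obtain ⟨l, hl, hE'⟩ := hE
  have hadj : IntermediateField.adjoin k (Set.range fun j => y j / y i) = ⊤ := by
    rw [eq_top_iff]
    intro z _
    have h1 := pow_mem_adjoin p 0 hψ hl (fun z => by rw [hE']; trivial) hκ hψy hi hF z
    rwa [pow_zero, pow_one] at h1
  rcases hcase with hdisc | ⟨h2, ha, hb, hd, hv⟩
  · exact Or.inl ⟨r, m, ψ, E, F, _, _, _, _, _, ‹_›, ε, a, b, c, d, e, u, v, y, hψ, hB, ⟨l, hl, hE'⟩,
      ht, hdisc, hu, heq, htop, hy, ⟨κ, hκ, hψy⟩, i, hi, hadj⟩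
  · refine Or.inr ⟨h2, r, m, ψ, E, F, _, _, _, _, _, ‹_›, ε, c, e, u, v, y, hψ, hB, ⟨l, hl, hE'⟩,
      ht, hu, ?_, hv, htop, hy, ⟨κ, hκ, hψy⟩, i, hi, hadj⟩
    subst ha hb hd
    simp only [map_zero, zero_mul, add_zero] at heq
    exact heq

theorem main_cif [IsAlgClosed k] {I : Ideal (MvPolynomial σ k)} (hI : I.IsPrime) (hH : Hom I)
    (hsm : ∀ x : σ → k, x ≠ 0 → On I x → SmoothPt I x)
    (hrc : ∀ x x' : σ → k, x ≠ 0 → x' ≠ 0 → On I x → On I x' → Relation.ReflTransGen (Joined I) x x')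
    (hc : ConicInFibre I) : HasSurface I := by
  rcases cases_of hc with h | h
  · exact main hI hH hsm hrc h
  · exact mainW hI hH hsm hrc h

end Pool.Agent.Helper49.CI
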