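import Pool.Agent.Helper49.CI.Curve
import Pool.Agent.Helper49.CI.DataQ
import Pool.Agent.Helper97.QC.Lift

/-!
# Smooth rationally chain connected varieties with conics over the perfect closure of the function field
of the base in the fibres of a rational map
-/

set_option autoImplicit false

namespace Pool.Agent.Helper49.CI

open MvPolynomial Pool.Agent.Helper97.GM Pool.Agent.Helper97.RU Pool.Agent.Helper97.CB
open Pool.Agent.Helper97.QC

universe u

variable {k : Type u} [Field k] {σ : Type} [Fintype σ]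

theorem mainQ [IsAlgClosed k] (p s : ℕ) [ExpChar k p] {I : Ideal (MvPolynomial σ k)} (hI : I.IsPrime)
    (hH : Hom I) (hsm : ∀ x : σ → k, x ≠ 0 → On I x → SmoothPt I x)
    (hrc : ∀ x x' : σ → k, x ≠ 0 → x' ≠ 0 → On I x → On I x' → Relation.ReflTransGen (Joined I) x x')
    (hc : HasConicQ (p ^ s) I) : HasUnirational I := by
  obtain ⟨M, d, d', δ, φ, τ₀, τ₁, τ₂, D, hφ, hτ₀, hτ₁, hτ₂, hD, -, hDI, ⟨l, l', hind⟩, hK⟩ :=
    dataQC p s hc hH
  obtain ⟨b, hb, hbD, hbc⟩ := exists_curve hI hH hsm hrc hφ hD hDI hind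
  exact liftQ p s hφ hτ₀ hτ₁ hτ₂ hD hK hb hbD hbc

end Pool.Agent.Helper49.CI
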